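import Pool.Agent.Q234.StR
import Pool.Agent.Results.MP_4011c3_nt.ChenEveryEven

/-!
# Every large `n = k + m`: `p_k ^ 2 - 2` (or `p_m ^ 2 - 2`) almost prime, the two other numbers prime with other constants

Q1 asks for every `n > 1` for a representation `n = k + m` for which `p_k ^ 2 - 2`, `p_m ^ 2 - 2` and
`p_{p_m} ^ 2 - 2` are primes. Here one of the first two conditions (whichever one likes) is kept with its constant `-2`,
with a number with at most `2 t` prime factors, all of them large, in place of a prime. In the two other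
conditions the constants `-2` are replaced by almost all pairs `(h_0, h_1)` of multiples of a small primorial `M`, the
product of the primes up to `y`, where `y` is of the order of magnitude `log log n`, so that `M` is a power of
`log n`, and the numbers are primes.

This holds for EVERY large `n`, for the expected number of the elements `k` of ANY set `K` of at least `n / log ^ A n`
integers `0 < k < n` with the first property, for instance of the set of all of them (part (2)).
-/

set_option autoImplicit false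

open Finset

namespace Pool.Agent.Results.MP_04ff0f_nt.AlmostPrimeSummand

/-- The `k`-th prime: `p 1 = 2`, `p 2 = 3`. -/
noncomputable def p (k : ℕ) : ℕ := Nat.nth Nat.Prime (k - 1)

/-- The product of `1 - 1/q` over the primes `q ≤ y`. -/
noncomputable def V (y : ℕ) : ℝ := ∏ q ∈ (Icc 1 y).filter Nat.Prime, (1 - 1 / (q : ℝ))

/-- `q ^ 2 - 2 > 0` has at most `2 t` prime factors (counted with multiplicity), each of which, `l` say, has
`l ^ t > q`. -/
def AlmostPrime (t q : ℕ) : Prop :=
  0 < q ^ 2 - 2 ∧ (q ^ 2 - 2).primeFactorsList.length ≤ 2 * t ∧ ∀ l : ℕ, l.Prime → l ∣ q ^ 2 - 2 → q < l ^ t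

/-- For `s = 0`: the summand `k`; for `s = 1`: the summand `m = n - k`. -/
def summand (s : Fin 2) (n k : ℕ) : ℕ := if s = 0 then k else n - k

open Classical in
/-- The `k ∈ K` such that `p_v ^ 2 + h_0` and `p_{p_m} ^ 2 + h_1` are primes, where `v` is the other summand (`v = m` for
`s = 0`, `v = k` for `s = 1`) and `m = n - k`. -/
noncomputable def good (s : Fin 2) (n : ℕ) (K : Finset ℕ) (h : Fin 2 → ℕ) : Finset ℕ :=
  K.filter (fun k => (p (summand (1 - s) n k) ^ 2 + h 0).Prime ∧ (p (p (n - k)) ^ 2 + h 1).Prime)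

open Classical in
/-- The `k` with `0 < k < n` for which `p_u ^ 2 - 2` is almost prime, `u = k` for `s = 0`, `u = n - k` for `s = 1`. -/
noncomputable def all (s : Fin 2) (t n : ℕ) : Finset ℕ := (Ioo 0 n).filter (fun k => AlmostPrime t (p (summand s n k)))

theorem nth_inj : Function.Injective (Nat.nth Nat.Prime) := Nat.nth_injective Nat.infinite_setOfPred_prime

/-- the two sequences of primes -/
noncomputable def F (s : Fin 2) (n : ℕ) : Fin 2 → ℕ → ℕ := ![fun k => p (summand (1 - s) n k), fun k => p (p (n - k))]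

theorem F_inj (s : Fin 2) (n : ℕ) (i : Fin 2) : Set.InjOn (F s n i) (Ioo 0 n : Finset ℕ) := by
  intro a ha b hb hab
  rw [mem_coe, mem_Ioo] at ha hb
  fin_cases i
  · have h1 := nth_inj hab
    unfold summand at h1
    split_ifs at h1 <;> omega
  · have h1 := nth_inj hab
    have h2 : 2 ≤ p (n - a) := (Nat.prime_nth_prime _).two_le
    have h3 : 2 ≤ p (n - b) := (Nat.prime_nth_prime _).two_le
    have h4 : p (n - a) = p (n - b) := by omega
    have h5 := nth_inj h4
    omega

theorem index {q : ℕ} (hq : q.Prime) : 1 ≤ Nat.primeCounting q ∧ Nat.primeCounting q < q ∧ p (Nat.primeCounting q) = q := by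
  have h1 : p (Nat.primeCounting q) = q := by
    unfold p Nat.primeCounting Nat.primeCounting'
    rw [Nat.count_succ, if_pos hq, Nat.add_sub_cancel]
    exact Nat.nth_count hq
  refine ⟨?_, ?_, h1⟩
  · unfold Nat.primeCounting Nat.primeCounting'
    rw [Nat.count_succ, if_pos hq]
    omega
  · have h2 := Nat.add_two_le_nth_prime (Nat.primeCounting q - 1)
    have h3 : Nat.nth Nat.Prime (Nat.primeCounting q - 1) = q := h1
    rw [h3] at h2
    omega

/-- the second part for the summand `k` -/
theorem many : ∃ t : ℕ, 1 ≤ t ∧ ∃ n₀ : ℕ, ∀ n : ℕ, n₀ ≤ n → (n : ℝ) ≤ (all 0 t n).card * Real.log n ^ 5 := by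
  classical
  obtain ⟨t, ht, c, hc, H⟩ := Pool.Agent.Results.MP_4011c3_nt.ChenEveryEven.result
  obtain ⟨n1, h1⟩ := (H 0).1 (1 / 4) (by norm_num)
  obtain ⟨n2, hn2⟩ := Pool.Agent.H373R2.T7.ev_L' (16 / c ^ 2)
  refine ⟨t, ht, max (n1 + 1) (max n2 20), fun n hn => ?_⟩
  have b1 : n1 + 1 ≤ n := (le_max_left _ _).trans hn
  have b2 : n2 ≤ n := le_trans (le_trans (le_max_left _ _) (le_max_right _ _)) hn
  have b3 : 20 ≤ n := le_trans (le_trans (le_max_right _ _) (le_max_right _ _)) hn
  have hL := hn2 n b2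
  -- an even number
  obtain ⟨N, hN⟩ : ∃ N, N = 2 * (n / 2) := ⟨_, rfl⟩
  have hNe : Even N := ⟨n / 2, by rw [hN]; ring⟩
  have hNn : N ≤ n := by omega
  have hNn1 : n ≤ N + 1 := by omega
  obtain ⟨hV, hcnt⟩ := h1 N (by omega) hNe
  have hNr : (19 : ℝ) ≤ N := by exact_mod_cast (by omega : 19 ≤ N)
  have hnr : (n : ℝ) ≤ N + 1 := by exact_mod_cast hNn1
  have hNr2 : (N : ℝ) ≤ n := by exact_mod_cast hNn
  obtain ⟨B, hB⟩ : ∃ B, B = N - 2 := ⟨_, rfl⟩
  have hBr : (B : ℝ) = N - 2 := by
    rw [hB, Nat.cast_sub (by omega)]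
    norm_num
  have h2 := hcnt 0 B (by omega) (by rw [hBr, Nat.cast_zero]; linarith)
  have hlN : 0 < Real.log N := Real.log_pos (by linarith)
  have hln : Real.log N ≤ Real.log n := Real.log_le_log (by linarith) hNr2
  have hln0 : 0 < Real.log n := hlN.trans_le hln
  have h3 : c ^ 2 / 4 * n / Real.log n ^ 4 ≤ ((Pool.Agent.Results.MP_4011c3_nt.ChenEveryEven.N t N 0 0 B).card : ℝ) := by
    refine le_trans ?_ h2
    rw [hBr, Nat.cast_zero, sub_zero]
    have e1 : c / Real.log n ^ 4 ≤ c / Real.log N ^ 4 := by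
      apply div_le_div_of_nonneg_left hc.le (by positivity)
      exact pow_le_pow_left₀ hlN.le hln 4
    have e2 : (n : ℝ) / 4 ≤ N - 2 := by linarith
    calc c ^ 2 / 4 * n / Real.log n ^ 4 = c * (n / 4) * (c / Real.log n ^ 4) := by ring
      _ ≤ c * ((N : ℝ) - 2) * Pool.Agent.Results.MP_4011c3_nt.ChenEveryEven.V 0 N := by
          apply mul_le_mul _ (e1.trans hV) (by positivity) (by nlinarith)
          exact mul_le_mul_of_nonneg_left e2 hc.le
  have h4 : (Pool.Agent.Results.MP_4011c3_nt.ChenEveryEven.N t N 0 0 B).card ≤ (all 0 t n).card := by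
    apply card_le_card_of_injOn Nat.primeCounting
    · intro x hx
      unfold Pool.Agent.Results.MP_4011c3_nt.ChenEveryEven.N at hx
      rw [mem_coe, mem_filter, mem_Ioc] at hx
      obtain ⟨⟨hx0, hxB⟩, hxp, hx1, -, hx2⟩ := hx
      rw [if_pos rfl] at hx2
      obtain ⟨i1, i2, i3⟩ := index hxp
      unfold all
      rw [mem_coe, mem_filter, mem_Ioo]
      refine ⟨⟨by omega, by omega⟩, ?_⟩
      have e : summand 0 n (Nat.primeCounting x) = Nat.primeCounting x := if_pos rfl
      rw [e, i3]
      refine ⟨hx2.1, hx2.2.1, ?_⟩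
      intro l hl hd
      have h5 := hx2.2.2 l hl hd
      have hxN : (x : ℝ) ≤ N := by exact_mod_cast (by omega : x ≤ N)
      have htr : (0 : ℝ) < t := by exact_mod_cast ht
      have h6 : (N : ℝ) < (l : ℝ) ^ t := by
        calc (N : ℝ) = ((N : ℝ) ^ (1 / (t : ℝ))) ^ t := by
              rw [← Real.rpow_natCast, ← Real.rpow_mul (by linarith), one_div, inv_mul_cancel₀ htr.ne', Real.rpow_one]
          _ < (l : ℝ) ^ t := pow_lt_pow_left₀ h5 (by positivity) (by omega)
      have h7 : (x : ℝ) < (l : ℝ) ^ t := lt_of_le_of_lt hxN h6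
      exact_mod_cast h7
    · intro x hx x' hx' h
      unfold Pool.Agent.Results.MP_4011c3_nt.ChenEveryEven.N at hx hx'
      rw [mem_coe, mem_filter] at hx hx'
      have e1 := (index hx.2.1).2.2
      have e2 := (index hx'.2.1).2.2
      rw [← e1, ← e2, h]
  have h5 : c ^ 2 / 4 * n / Real.log n ^ 4 ≤ ((all 0 t n).card : ℝ) := h3.trans (by exact_mod_cast h4)
  rw [div_le_iff₀ (by positivity)] at h5
  have h6 : 4 ≤ c ^ 2 * Real.log n := by
    have e1 : 16 ≤ Real.log n * c ^ 2 := by rwa [div_le_iff₀ (by positivity)] at hL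
    linarith
  have hn0 : (0 : ℝ) ≤ n := Nat.cast_nonneg _
  calc (n : ℝ) ≤ (c ^ 2 * Real.log n) / 4 * n := by nlinarith
    _ = (c ^ 2 / 4 * n) * Real.log n := by ring
    _ ≤ ((all 0 t n).card * Real.log n ^ 4) * Real.log n := mul_le_mul_of_nonneg_right h5 hln0.le
    _ = _ := by ring

/-- (1) For all `t`, `s`, `A`, `C` and `0 < ε ≤ 1` there is `K₀` such that for every `K₁` and every large `n`, every `y`
between `K₀ log log n` and `K₁ log log n`, with `M` the product of the primes `≤ y`, and all windows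
`(g₀ i, g₀ i + G i]` with `M (g₀ i + G i) ≤ n ^ 2`, `G i ≥ n ^ 2 / (M log ^ C n)`, `i = 0, 1`: for every set `K` of at
least `n / log ^ A n` integers `0 < k < n` such that `p_u ^ 2 - 2` is almost prime (`u = k` for `s = 0`, `u = m = n - k`
for `s = 1`), for all but at most `ε (G 0) (G 1)` of the pairs `g`, with `h_i = M (g₀ i + g i)`, the numbers
`p_v ^ 2 + h_0` (`v` the other summand) and `p_{p_m} ^ 2 + h_1` are primes for at least `(1 - ε) #K / (2 V y log n) ^ 2`
elements `k` of `K`. (2) There is `t` such that for both `s` the set of all these `k` has at least `n / log ^ 5 n`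
elements for all large `n`. -/
theorem result : (∀ (t : ℕ) (s : Fin 2) (A C : ℕ) (ε : ℝ), 0 < ε → ε ≤ 1 → ∃ K₀ : ℕ, ∀ K₁ : ℕ, ∃ n₀ : ℕ, ∀ n : ℕ, n₀ ≤ n →
    ∀ y : ℕ, K₀ * Real.log (Real.log n) ≤ y → y ≤ K₁ * Real.log (Real.log n) →
    ∀ g₀ G : Fin 2 → ℕ, (∀ i, primorial y * (g₀ i + G i) ≤ n ^ 2) →
      (∀ i, (n : ℝ) ^ 2 ≤ primorial y * G i * Real.log n ^ C) →
    ∀ K : Finset ℕ, K ⊆ Ioo 0 n → (∀ k ∈ K, AlmostPrime t (p (summand s n k))) → (n : ℝ) ≤ K.card * Real.log n ^ A →
      (((Fintype.piFinset fun i => Icc 1 (G i)).filter (fun g =>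
        ((good s n K (fun i => primorial y * (g₀ i + g i))).card : ℝ) <
        (1 - ε) * (K.card / (2 * V y * Real.log n) ^ 2))).card : ℝ) ≤ ε * (G 0 * G 1)) ∧
    (∃ t : ℕ, 1 ≤ t ∧ ∀ s : Fin 2, ∃ n₀ : ℕ, ∀ n : ℕ, n₀ ≤ n → (n : ℝ) ≤ (all s t n).card * Real.log n ^ 5) := by
  classical
  constructor
  · intro t s A C ε hε hε1
    obtain ⟨K₀', hK₀'⟩ := Pool.Agent.Q234.StR.stepR 5 C 2 (fun _ => 2) (fun _ => Or.inr rfl) A ε hε hε1
    refine ⟨K₀', fun K₁ => ?_⟩
    obtain ⟨n2', hn2'⟩ := hK₀' K₁
    obtain ⟨n3, hn3⟩ := Pool.Agent.H373R2.T7.ev_L' 1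
    obtain ⟨n4, hn4⟩ := Pool.Agent.Y877.SX.nth_le_log
    obtain ⟨n5, hn5⟩ := Pool.Agent.Y877.SX.nth_nth_le_log
    refine ⟨max n2' (max n3 (max n4 n5)), fun n hn y hy1 hy2 g₀ G hg1 hg2 K hK hKc hKA => ?_⟩
    have b2' : n2' ≤ n := le_trans (le_max_left _ _) hn
    have b3 : n3 ≤ n := le_trans (le_trans (le_max_left _ _) (le_max_right _ _)) hn
    have b4 : n4 ≤ n := le_trans (le_trans (le_trans (le_max_left _ _) (le_max_right _ _)) (le_max_right _ _)) hn
    have b5 : n5 ≤ n := le_trans (le_trans (le_trans (le_max_right _ _) (le_max_right _ _)) (le_max_right _ _)) hn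
    have hL1 := hn3 n b3
    have h1 := hn2' n b2' y hy1 hy2 K hKA (F s n) (fun i => (F_inj s n i).mono (by exact_mod_cast hK)) (by
      intro i k hk
      have hk2 := mem_Ioo.1 (hK hk)
      fin_cases i
      · refine ⟨Nat.prime_nth_prime _, ?_⟩
        have hs : summand (1 - s) n k - 1 ≤ n := by
          unfold summand
          split_ifs <;> omega
        refine (hn4 n b4 (summand (1 - s) n k - 1) (by omega)).trans ?_
        apply mul_le_mul_of_nonneg_left _ (Nat.cast_nonneg _)
        exact pow_le_pow_right₀ hL1 (by norm_num)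
      · exact ⟨Nat.prime_nth_prime _, hn5 n b5 (n - k - 1) (by omega)⟩) g₀ G hg1 hg2
    rw [Fin.prod_univ_two, Fin.prod_univ_two] at h1
    refine le_trans (le_of_eq ?_) h1
    congr 2
    apply filter_congr
    intro g _
    have e1 : K.filter (fun j => ∀ i, (F s n i j ^ 2 + primorial y * (g₀ i + g i)).Prime) =
        good s n K (fun i => primorial y * (g₀ i + g i)) := by
      unfold good
      apply filter_congr
      intro k _
      rw [Fin.forall_fin_succ, Fin.forall_fin_one]
      rfl
    have e2 : (Pool.Agent.H373R2.T7.Vz y * (((2 : ℕ) : ℝ) * Real.log n)) * (Pool.Agent.H373R2.T7.Vz y * (((2 : ℕ) : ℝ) * Real.log n)) =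
        (2 * V y * Real.log n) ^ 2 := by
      have : V y = Pool.Agent.H373R2.T7.Vz y := rfl
      rw [this]
      push_cast
      ring
    rw [e1, e2]
  · obtain ⟨t, ht, n₀, h0⟩ := many
    refine ⟨t, ht, fun s => ⟨n₀, fun n hn => ?_⟩⟩
    refine (h0 n hn).trans (le_of_eq ?_)
    congr 2
    rcases (by omega : s = 0 ∨ s = 1) with rfl | rfl
    · rfl
    · apply card_bij (fun k _ => n - k)
      · intro k hk
        unfold all at hk ⊢
        rw [mem_filter, mem_Ioo] at hk ⊢
        refine ⟨⟨by omega, by omega⟩, ?_⟩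
        have e : summand 1 n (n - k) = summand 0 n k := by
          unfold summand
          simp only [if_true]
          rw [if_neg (by decide)]
          omega
        rw [e]
        exact hk.2
      · intro a ha b hb hab
        unfold all at ha hb
        rw [mem_filter, mem_Ioo] at ha hb
        omega
      · intro b hb
        unfold all at hb
        rw [mem_filter, mem_Ioo] at hb
        refine ⟨n - b, ?_, by omega⟩
        unfold all
        rw [mem_filter, mem_Ioo]
        refine ⟨⟨by omega, by omega⟩, ?_⟩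
        have e : summand 0 n (n - b) = summand 1 n b := by
          unfold summand
          simp only [if_true]
          rw [if_neg (by decide)]
        rw [e]
        exact hb.2

end Pool.Agent.Results.MP_04ff0f_nt.AlmostPrimeSummand
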