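import Pool.Agent.Q55.SqRough

/-!
# The least summands in the decompositions `n = k + m` with `p_k² - 2`, `p_m² - 2`, `p_{p_m}² - 2` prime

For almost all `n` both `k` and `m` are larger than `c log n log log n` in ALL such decompositions, and the number of
the indices below `k` (below `m`) with the properties required of `k` (of `m`) is at least `c log n`. The same holds if
the three numbers are only required to have no prime factor below a small power of the prime in question.
-/

set_option autoImplicit false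

open Finset Filter

namespace Pool.Agent.Results.MP_04ff0f_nt.LeastSummands

/-- the `j`-th prime, `p 1 = 2` -/
noncomputable def p (j : ℕ) : ℕ := Nat.nth Nat.Prime (j - 1)

/-- `q ^ 2 - 2` has no prime factor `l ≤ q ^ (1 / s)` (for `s ≥ 2` this holds if `q ^ 2 - 2` is a prime) -/
def Rough (s q : ℕ) : Prop := ∀ l : ℕ, l.Prime → l ∣ q ^ 2 - 2 → q < l ^ s

/-- the property required of `k` -/
def First (s k : ℕ) : Prop := Rough s (p k)

/-- the property required of `m` -/
def Second (s m : ℕ) : Prop := Rough s (p m) ∧ Rough s (p (p m))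

/-- the number of the indices `1 ≤ j < t` with the property `U` -/
noncomputable def below (U : ℕ → Prop) (t : ℕ) : ℕ := Set.ncard {j : ℕ | 1 ≤ j ∧ j < t ∧ U j}

/-- in all decompositions `n = k + m` with the properties `First s k` and `Second s m` both summands are larger than
`c log X log log X`, and at least `c log X` smaller indices have the same property -/
def Large (s : ℕ) (c X : ℝ) (n : ℕ) : Prop :=
  ∀ k m : ℕ, 1 ≤ k → 1 ≤ m → k + m = n → First s k → Second s m →
    c * (Real.log X * Real.log (Real.log X)) < k ∧ c * (Real.log X * Real.log (Real.log X)) < m ∧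
    c * Real.log X < below (First s) k ∧ c * Real.log X < below (Second s) m

theorem rough_of_prime {s q : ℕ} (hs : 2 ≤ s) (hq : q.Prime) (h : (q ^ 2 - 2).Prime) : Rough s q := by
  intro l hl hd
  rw [(Nat.prime_dvd_prime_iff_eq hl h).1 hd]
  have h2 := hq.two_le
  have h3 : q ≤ q ^ 2 - 2 := by
    have : q + 2 ≤ q ^ 2 := by nlinarith
    omega
  calc q ≤ q ^ 2 - 2 := h3
    _ = (q ^ 2 - 2) ^ 1 := (pow_one _).symm
    _ < (q ^ 2 - 2) ^ s := Nat.pow_lt_pow_right h.one_lt (by omega)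

/-- **Theorem.** Let `s ≥ 2`. For every `ε > 0` there is `c > 0` such that for all large `X` and all `n ≤ X` with at
most `ε X` exceptions: if `n = k + m` and each of the numbers `p_k² - 2`, `p_m² - 2`, `p_{p_m}² - 2` has no prime factor
up to `p_k ^ (1 / s)`, `p_m ^ (1 / s)`, `p_{p_m} ^ (1 / s)`, respectively (in particular if the three numbers are primes),
then `k, m > c log X log log X`, and at least `c log X` indices smaller than `k` (than `m`) have the same property. -/
theorem result :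
    (∀ s : ℕ, 2 ≤ s → ∀ ε : ℝ, 0 < ε → ∃ c : ℝ, 0 < c ∧ ∀ᶠ X : ℕ in atTop,
      (Set.ncard {n : ℕ | 1 ≤ n ∧ n ≤ X ∧ ¬ Large s c X n} : ℝ) ≤ ε * X) ∧
    ∀ s : ℕ, 2 ≤ s → (∀ k : ℕ, (p k ^ 2 - 2).Prime → First s k) ∧
      ∀ m : ℕ, (p m ^ 2 - 2).Prime → (p (p m) ^ 2 - 2).Prime → Second s m := by
  classical
  refine ⟨fun s hs ε hε => ?_, fun s hs => ⟨fun k hk => rough_of_prime hs (Nat.prime_nth_prime _) hk,
    fun m hm hm2 => ⟨rough_of_prime hs (Nat.prime_nth_prime _) hm, rough_of_prime hs (Nat.prime_nth_prime _) hm2⟩⟩⟩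
  have hthin := Pool.Agent.Q55.SqRough.thin s (by omega)
  have hfew1 : Pool.Agent.TH685.Gen.Few (First s) := Pool.Agent.TH685.Gen.few_of_thin _ hthin
  have hfew2 : Pool.Agent.TH685.Gen.Few (Second s) := by
    obtain ⟨C, hC, X₀, hX₀, h⟩ := hfew1
    refine ⟨C, hC, X₀, hX₀, fun X hX => le_trans ?_ (h X hX)⟩
    exact Nat.cast_le.2 (Pool.Agent.TH685.Gen.cn_mono (fun j hj => hj.1) _)
  obtain ⟨c₁, hc₁, X₁, h1⟩ := Pool.Agent.TH685.Gen.cover _ hfew1 (ε / 2) (by positivity)
  obtain ⟨c₂, hc₂, X₂, h2⟩ := Pool.Agent.TH685.Gen.cover _ hfew2 (ε / 2) (by positivity)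
  obtain ⟨c₀, hc₀⟩ : ∃ c₀ : ℝ, c₀ = min c₁ c₂ := ⟨_, rfl⟩
  have hc₀0 : 0 < c₀ := by rw [hc₀]; exact lt_min hc₁ hc₂
  obtain ⟨c₃, hc₃, X₃, h3⟩ := Pool.Agent.TH685.Gen.big _ hthin c₀ hc₀0
  refine ⟨min c₀ c₃, lt_min hc₀0 hc₃, ?_⟩
  filter_upwards [eventually_ge_atTop X₁, eventually_ge_atTop X₂, eventually_ge_atTop X₃,
    eventually_ge_atTop 16] with X hX1 hX2 hX3 hX16
  obtain ⟨B1, hB1, h1⟩ := h1 X hX1 (Second s)
  obtain ⟨B2, hB2, h2⟩ := h2 X hX2 (First s)
  have hXr : (16 : ℝ) ≤ X := by exact_mod_cast hX16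
  have hL : 1 < Real.log X := by
    rw [Real.lt_log_iff_exp_lt (by linarith)]
    have := Real.exp_one_lt_d9
    linarith
  have hLL : 0 < Real.log (Real.log X) := Real.log_pos hL
  have hsub : {n : ℕ | 1 ≤ n ∧ n ≤ X ∧ ¬ Large s (min c₀ c₃) X n} ⊆ ((B1 ∪ B2 : Finset ℕ) : Set ℕ) := by
    rintro n ⟨hn1, hnX, hnL⟩
    by_contra hnB
    rw [mem_coe, mem_union, not_or] at hnB
    apply hnL
    intro k m hk hm hkm hF hS
    have e1 := h1 n hnX hnB.1 k m hk hm hkm hF hS
    have e2 := h2 n hnX hnB.2 m k hm hk (by omega) hS hF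
    have g1 : c₀ * Real.log X < Pool.Agent.TH685.Gen.cn (Second s) m := by
      refine lt_of_le_of_lt ?_ e1
      apply mul_le_mul_of_nonneg_right _ (by linarith)
      rw [hc₀]; exact min_le_left _ _
    have g2 : c₀ * Real.log X < Pool.Agent.TH685.Gen.cn (First s) k := by
      refine lt_of_le_of_lt ?_ e2
      apply mul_le_mul_of_nonneg_right _ (by linarith)
      rw [hc₀]; exact min_le_right _ _
    have g3 : c₀ * Real.log X < Pool.Agent.TH685.Gen.cn (First s) m :=
      lt_of_lt_of_le g1 (Nat.cast_le.2 (Pool.Agent.TH685.Gen.cn_mono (fun j hj => hj.1) _))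
    have f1 := h3 X hX3 k hk g2
    have f2 := h3 X hX3 m hm g3
    have hm1 : min c₀ c₃ * (Real.log X * Real.log (Real.log X)) ≤ c₃ * (Real.log X * Real.log (Real.log X)) := by
      apply mul_le_mul_of_nonneg_right (min_le_right _ _)
      have : 0 < Real.log X := by linarith
      positivity
    have hm2 : min c₀ c₃ * Real.log X ≤ c₀ * Real.log X :=
      mul_le_mul_of_nonneg_right (min_le_left _ _) (by linarith)
    exact ⟨lt_of_le_of_lt hm1 f1, lt_of_le_of_lt hm1 f2, lt_of_le_of_lt hm2 g2, lt_of_le_of_lt hm2 g1⟩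
  have h4 := Set.ncard_le_ncard hsub (finite_toSet _)
  rw [Set.ncard_coe_finset] at h4
  have h5 : (Set.ncard {n : ℕ | 1 ≤ n ∧ n ≤ X ∧ ¬ Large s (min c₀ c₃) X n} : ℝ) ≤ B1.card + B2.card := by
    exact_mod_cast h4.trans (card_union_le _ _)
  linarith

end Pool.Agent.Results.MP_04ff0f_nt.LeastSummands
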