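import Pool.Agent.Q48.RD.PMom
import Pool.Agent.TH464.PW.Quad

/-!
# Primes `p` for which `p ^ 2 - 2` is prime, in short intervals: all moments

We count the primes `n` in `(x, x + T]` for which `n ^ 2 - 2` is a prime, and the almost primes `n` for which `n ^ 2 - 2` is
an almost prime.

Let `g ≥ 2` be a base and `K` a large number of digits. For every `i < K` let `A i` be an arbitrary set of digits, such that the number
`|A 0| ⋯ |A (K - 1)|` of the integers `t < g ^ K` whose `i`-th digit belongs to `A i` for all `i < K` is at least `exp (- δ K) g ^ K`.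
Let `2 ≤ N ≤ g ^ (E K)` be arbitrary. We consider the numbers `x = N + t` with these `t`: they form a set with only
`y ^ (1 - δ')` elements in an interval of length `y = g ^ K`, which may be an arbitrarily small power of `x`.

Let `k ≥ 1` and `T ≤ g ^ (E K)`. The conjecture of Bateman and Horn for the `2 k` polynomials `n + h_i`, `(n + h_i) ^ 2 - 2`, averaged over the
shifts `h_1, …, h_k ≤ T`, predicts that the mean value of the `k`-th power of this number has the order of magnitude of
`(T / K ^ 2) ^ k` for `T ≥ K ^ 2` and of `T / K ^ 2` for `T ≤ K ^ 2`. We prove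

(1) the upper bound of this order for the primes, for `x` in all these sets;

(2) the exact order of magnitude for the almost primes;

(3) that a positive proportion (for `T ≤ K ^ 2`: the expected proportion `T / K ^ 2`) of the intervals `(x, x + T]` contains the
expected number of such `n`, with almost primes.
-/

set_option autoImplicit false

namespace Pool.Agent.Results.MP_04ff0f_nt.MomentsInShortIntervals

open Filter Finset Polynomial
open Pool.Agent.Q315.RD Pool.Agent.Q48.RD
open Pool.Agent.TH464.PW (quad quad_irr quad_deg quad_lead quad_eval)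

/-- The number of the `n` with `x < n ≤ x + T` for which `n` and `n ^ 2 - 2` are both primes. -/
def primesIn (x T : ℕ) : ℕ := ((Ioc x (x + T)).filter fun n => (n).Prime ∧ (n ^ 2 - 2).Prime).card

open Classical in
/-- The number of the `n` with `x < n ≤ x + T` for which `n` and `n ^ 2 - 2` have at most `r` prime factors each, all
larger than `y ^ (1 / r)`. -/
noncomputable def almostPrimesIn (y r x T : ℕ) : ℕ :=
  ((Ioc x (x + T)).filter fun n => AlmostPrime y r (n) ∧ AlmostPrime y r (n ^ 2 - 2)).card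

open Classical in
/-- The integers `t < g ^ K` whose `i`-th digit belongs to `A i` for all `i < K`. -/
noncomputable def digitSet (g K : ℕ) (A : ℕ → Finset ℕ) : Finset ℕ := (range (g ^ K)).filter (HasDigits g K A)

/-- The predicted order of magnitude of the mean value of the `k`-th power: `T / K ^ 2` for `T ≤ K ^ 2` and `(T / K ^ 2) ^ k` for
`T ≥ K ^ 2`. -/
noncomputable def order (k T K : ℕ) : ℝ := min 1 ((T : ℝ) / (K : ℝ) ^ 2) * max 1 ((T : ℝ) / (K : ℝ) ^ 2) ^ k

/-- **All moments of the number of the primes `p` with `p ^ 2 - 2` prime in short intervals.** -/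
theorem result (k : ℕ) (hk : 1 ≤ k) (E : ℕ) :
    ∃ δ : ℝ, 0 < δ ∧ ∃ r₀ : ℕ, 2 ≤ r₀ ∧ ∀ r : ℕ, r₀ ≤ r → ∀ g : ℕ, 2 ≤ g → ∃ κ C : ℝ, 0 < κ ∧ 0 < C ∧
      ∀ᶠ K : ℕ in atTop, ∀ N T : ℕ, 2 ≤ N → N ≤ g ^ (E * K) → 1 ≤ T → T ≤ g ^ (E * K) →
        ∀ A : ℕ → Finset ℕ, (∀ i < K, A i ⊆ range g) → (g : ℝ) ^ K ≤ Real.exp (δ * K) * choices K A →
        -- the primes
        ∑ t ∈ digitSet g K A, (primesIn (N + t) T : ℝ) ^ k ≤ C * order k T K * choices K A ∧
        -- the almost primes
        ∑ t ∈ digitSet g K A, (almostPrimesIn (g ^ K) r (N + t) T : ℝ) ^ k ≤ C * order k T K * choices K A ∧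
        (g ≤ T →
          κ * order k T K * choices K A ≤ ∑ t ∈ digitSet g K A, (almostPrimesIn (g ^ K) r (N + t) T : ℝ) ^ k ∧
          κ * min 1 ((T : ℝ) / (K : ℝ) ^ 2) * choices K A ≤
            (((digitSet g K A).filter fun t => κ * max 1 ((T : ℝ) / (K : ℝ) ^ 2) ≤ almostPrimesIn (g ^ K) r (N + t) T).card : ℝ)) := by
  classical
  have hirr : Irreducible (quad 1 0 (-2)) := quad_irr 1 0 (-2) (by norm_num) (by
    intro p hp h
    have h1 := Int.le_of_dvd one_pos h.1
    have := hp.one_lt
    omega) (by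
    rintro ⟨z, hz⟩
    have h1 : z * z = 8 := by linarith
    have h2 : z < 3 := by nlinarith
    have h3 : -3 < z := by nlinarith
    interval_cases z <;> omega)
  have hno : ∀ t : ℤ, (X : ℤ[X]) ≠ (quad 1 0 (-2)).comp (X + C t) := by
    intro t h
    have h0 := congrArg (Polynomial.eval (0 : ℤ)) h
    have h1 := congrArg (Polynomial.eval (1 : ℤ)) h
    rw [Polynomial.eval_comp, Polynomial.eval_add, Polynomial.eval_X, Polynomial.eval_C, quad_eval] at h0 h1
    have h2 : t = 0 := by linarith
    rw [h2] at h0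
    norm_num at h0
  have hno' : ∀ t : ℤ, quad 1 0 (-2) ≠ (X : ℤ[X]).comp (X + C t) := by
    intro t h
    have h0 := congrArg (Polynomial.eval (0 : ℤ)) h
    have h2 := congrArg (Polynomial.eval (2 : ℤ)) h
    rw [Polynomial.X_comp, Polynomial.eval_add, Polynomial.eval_X, Polynomial.eval_C, quad_eval] at h0 h2
    linarith
  have hadm : ∀ p : ℕ, p.Prime → ∃ n : ℕ, ¬ (p : ℤ) ∣ (X : ℤ[X]).eval (n : ℤ) ∧ ¬ (p : ℤ) ∣ (quad 1 0 (-2)).eval (n : ℤ) := by
    intro p hp
    have hp2 := hp.two_le
    refine ⟨1, ?_, ?_⟩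
    · rw [Polynomial.eval_X]
      intro h
      have := Int.le_of_dvd (by norm_num) h
      norm_num at this
      omega
    · rw [quad_eval]
      intro h
      have h4 : (p : ℤ) ∣ 1 := by
        have h5 := (dvd_neg).2 h
        norm_num at h5 ⊢
        exact h5
      have := Int.le_of_dvd (by norm_num) h4
      omega
  obtain ⟨δ, hδ, r0, hr0, H⟩ := polyMoments (l := 2) ![X, quad 1 0 (-2)]
    { irr := by rw [Fin.forall_fin_two]; exact ⟨Polynomial.irreducible_X, hirr⟩
      deg := by rw [Fin.forall_fin_two]; exact ⟨by show 0 < (X : ℤ[X]).natDegree; rw [Polynomial.natDegree_X]; norm_num, by show 0 < (quad 1 0 (-2)).natDegree; rw [quad_deg _ _ _ (by norm_num)]; norm_num⟩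
      lead := by rw [Fin.forall_fin_two]; exact ⟨by show 0 < (X : ℤ[X]).leadingCoeff; rw [Polynomial.leadingCoeff_X]; norm_num, by show 0 < (quad 1 0 (-2)).leadingCoeff; rw [quad_lead _ _ _ (by norm_num)]; norm_num⟩
      inj := by
        intro i j hij
        have hne : (X : ℤ[X]) ≠ quad 1 0 (-2) := fun h => hno 0 (by rw [map_zero, add_zero, Polynomial.comp_X]; exact h)
        fin_cases i <;> fin_cases j
        · rfl
        · exact absurd hij hne
        · exact absurd hij.symm hne
        · rfl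
      adm := fun p hp => by
        obtain ⟨n, h1, h2⟩ := hadm p hp
        refine ⟨n, ?_⟩
        rw [Fin.forall_fin_two]
        exact ⟨h1, h2⟩ }
    (by
      intro i j hij t
      fin_cases i <;> fin_cases j
      · exact absurd rfl hij
      · exact hno t
      · exact hno' t
      · exact absurd rfl hij)
    ![fun n => n, fun n => n ^ 2 - 2] 2
    (by
      rw [Fin.forall_fin_two]
      exact ⟨fun n hn => by show (X : ℤ[X]).eval (n : ℤ) = ((n : ℕ) : ℤ); rw [Polynomial.eval_X], fun n hn => by
        show (quad 1 0 (-2)).eval (n : ℤ) = ((n ^ 2 - 2 : ℕ) : ℤ)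
        have h1 : 2 ≤ n ^ 2 := by nlinarith
        rw [quad_eval, Nat.cast_sub h1]
        push_cast
        ring⟩)
    (by
      rw [Fin.forall_fin_two]
      exact ⟨fun n hn => by show n ≤ 2 * n; omega, fun n hn => by
        show n ≤ 2 * (n ^ 2 - 2)
        have h1 : 2 * n ≤ n ^ 2 := by nlinarith
        omega⟩) k hk E
  refine ⟨δ, hδ, r0, hr0, fun r hr g hg => ?_⟩
  obtain ⟨κ, C, hκ, hC, H⟩ := H r hr g hg
  refine ⟨κ, C, hκ, hC, ?_⟩
  filter_upwards [H] with K HK
  intro N T hN0 hN hT1 hT A hA1 hA2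
  obtain ⟨h1, h2, h3⟩ := HK N T (hN0) hN hT1 hT A ⟨hA1, hA2⟩
  simp only [Fin.forall_fin_two] at h1 h2 h3
  have e1 : ∀ x, primesIn x T = numIn (fun n => (n).Prime ∧ (n ^ 2 - 2).Prime) x T := by
    intro x
    unfold primesIn numIn
    congr!
  have e2 : ∀ x, almostPrimesIn (g ^ K) r x T = numIn (fun n => AlmostPrime (g ^ K) r (n) ∧ AlmostPrime (g ^ K) r (n ^ 2 - 2)) x T := by
    intro x
    unfold almostPrimesIn numIn
    congr!
  simp only [e1, e2]
  refine ⟨h1, h2, fun hgT => ⟨(h3 hgT).1, (h3 hgT).2.trans (le_of_eq ?_)⟩⟩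
  unfold count digitSet
  rw [filter_filter]
  rfl

end Pool.Agent.Results.MP_04ff0f_nt.MomentsInShortIntervals
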