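import Pool.Agent.Q234.StR

/-!
# Representations `n = k + m` with `p_k ^ 2 + h_0`, `p_m ^ 2 + h_1`, `p_{p_m} ^ 2 + h_2` prime

Q1 asks for every `n > 1` for a representation `n = k + m` for which `p_k ^ 2 - 2`, `p_m ^ 2 - 2` and
`p_{p_m} ^ 2 - 2` are primes. The constants `-2, -2, -2` are replaced here by almost all triples
`(h_0, h_1, h_2)` of multiples of a small primorial `M`, the product of the primes up to `y`, where `y` is of
the order of magnitude `log log n`, so that `M` is a power of `log n`.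

For EVERY large `n` and EVERY set `K` of at least `n / log ^ A n` integers `0 < k < n` the three numbers are
simultaneously prime for the expected number of elements `k` of `K`, for almost all triples.
-/

set_option autoImplicit false

open Finset

namespace Pool.Agent.Results.MP_04ff0f_nt.ShiftTriples

/-- The `k`-th prime: `p 1 = 2`, `p 2 = 3`. -/
noncomputable def p (k : ℕ) : ℕ := Nat.nth Nat.Prime (k - 1)

/-- The product of `1 - 1/q` over the primes `q ≤ y`. -/
noncomputable def V (y : ℕ) : ℝ := ∏ q ∈ (Icc 1 y).filter Nat.Prime, (1 - 1 / (q : ℝ))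

open Classical in
/-- The `k ∈ K` such that with `m = n - k` the three numbers `p_k ^ 2 + h_0`, `p_m ^ 2 + h_1`,
`p_{p_m} ^ 2 + h_2` are prime. -/
noncomputable def Good (n : ℕ) (K : Finset ℕ) (h : Fin 3 → ℕ) : Finset ℕ :=
  K.filter (fun k => (p k ^ 2 + h 0).Prime ∧ (p (n - k) ^ 2 + h 1).Prime ∧ (p (p (n - k)) ^ 2 + h 2).Prime)

theorem nth_inj : Function.Injective (Nat.nth Nat.Prime) := Nat.nth_injective Nat.infinite_setOfPred_prime

/-- the three sequences of primes -/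
noncomputable def F (n : ℕ) : Fin 3 → ℕ → ℕ := ![p, fun k => p (n - k), fun k => p (p (n - k))]

theorem F_inj (n : ℕ) (i : Fin 3) : Set.InjOn (F n i) (Ioo 0 n : Finset ℕ) := by
  intro a ha b hb hab
  rw [mem_coe, mem_Ioo] at ha hb
  fin_cases i
  · have := nth_inj hab
    omega
  · have := nth_inj hab
    omega
  · have h1 := nth_inj hab
    have h2 : 2 ≤ p (n - a) := (Nat.prime_nth_prime _).two_le
    have h3 : 2 ≤ p (n - b) := (Nat.prime_nth_prime _).two_le
    have h4 : p (n - a) = p (n - b) := by omega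
    have h5 := nth_inj h4
    omega

/-- For all `A`, `C` and `0 < ε ≤ 1` there is `K₀` such that for every `K₁` and every large `n`, every `y`
between `K₀ log log n` and `K₁ log log n`, with `M` the product of the primes `≤ y`, and all windows
`(g₀ i, g₀ i + G i]` with `M (g₀ i + G i) ≤ n ^ 2`, `G i ≥ n ^ 2 / (M log ^ C n)`, `i < 3`: for every set `K` of
at least `n / log ^ A n` integers `0 < k < n`, for all but at most `ε (G 0) (G 1) (G 2)` of the vectors `g`,
`1 ≤ g i ≤ G i`, the three numbers `p_k ^ 2 + h_0`, `p_m ^ 2 + h_1`, `p_{p_m} ^ 2 + h_2`, where `m = n - k` and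
`h_i = M (g₀ i + g i)`, are prime for at least `(1 - ε) #K / (2 V y log n) ^ 3` elements `k` of `K`. -/
theorem result : ∀ (A C : ℕ) (ε : ℝ), 0 < ε → ε ≤ 1 → ∃ K₀ : ℕ, ∀ K₁ : ℕ, ∃ n₀ : ℕ, ∀ n : ℕ, n₀ ≤ n →
    ∀ y : ℕ, K₀ * Real.log (Real.log n) ≤ y → y ≤ K₁ * Real.log (Real.log n) →
    ∀ g₀ G : Fin 3 → ℕ, (∀ i, primorial y * (g₀ i + G i) ≤ n ^ 2) →
      (∀ i, (n : ℝ) ^ 2 ≤ primorial y * G i * Real.log n ^ C) →
    ∀ K : Finset ℕ, K ⊆ Ioo 0 n → (n : ℝ) ≤ K.card * Real.log n ^ A →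
      (((Fintype.piFinset fun i => Icc 1 (G i)).filter (fun g =>
        ((Good n K (fun i => primorial y * (g₀ i + g i))).card : ℝ) <
        (1 - ε) * (K.card / (2 * V y * Real.log n) ^ 3))).card : ℝ) ≤ ε * (G 0 * G 1 * G 2) := by
  classical
  intro A C ε hε hε1
  obtain ⟨K₀', hK₀'⟩ := Pool.Agent.Q234.StR.stepR 5 C 3 (fun _ => 2) (fun _ => Or.inr rfl) A ε hε hε1
  refine ⟨K₀', fun K₁ => ?_⟩
  obtain ⟨n2', hn2'⟩ := hK₀' K₁
  obtain ⟨n3, hn3⟩ := Pool.Agent.H373R2.T7.ev_L' 1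
  obtain ⟨n4, hn4⟩ := Pool.Agent.Y877.SX.nth_le_log
  obtain ⟨n5, hn5⟩ := Pool.Agent.Y877.SX.nth_nth_le_log
  refine ⟨max n2' (max n3 (max n4 n5)), fun n hn y hy1 hy2 g₀ G hg1 hg2 K hK hKc => ?_⟩
  have b2' : n2' ≤ n := le_trans (le_max_left _ _) hn
  have b3 : n3 ≤ n := le_trans (le_trans (le_max_left _ _) (le_max_right _ _)) hn
  have b4 : n4 ≤ n := le_trans (le_trans (le_trans (le_max_left _ _) (le_max_right _ _)) (le_max_right _ _)) hn
  have b5 : n5 ≤ n := le_trans (le_trans (le_trans (le_max_right _ _) (le_max_right _ _)) (le_max_right _ _)) hn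
  have hL1 := hn3 n b3
  have f1 : ∀ k ∈ Ioo 0 n, ∀ k', k' ≤ n → (p k').Prime ∧ (p k' : ℝ) ≤ n * Real.log n ^ 5 := by
    intro k hk k' hk'
    rw [mem_Ioo] at hk
    refine ⟨Nat.prime_nth_prime _, (hn4 n b4 (k' - 1) (by omega)).trans ?_⟩
    apply mul_le_mul_of_nonneg_left _ (Nat.cast_nonneg _)
    exact pow_le_pow_right₀ hL1 (by norm_num)
  have f2 : ∀ k ∈ Ioo 0 n, (p (p (n - k))).Prime ∧ (p (p (n - k)) : ℝ) ≤ n * Real.log n ^ 5 := by
    intro k hk
    rw [mem_Ioo] at hk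
    exact ⟨Nat.prime_nth_prime _, hn5 n b5 (n - k - 1) (by omega)⟩
  have h1 := hn2' n b2' y hy1 hy2 K hKc (F n) (fun i => (F_inj n i).mono (by exact_mod_cast hK)) (by
    intro i k hk
    have hk' := hK hk
    have hk2 := mem_Ioo.1 hk'
    fin_cases i
    · exact f1 k hk' k (by omega)
    · exact f1 k hk' (n - k) (by omega)
    · exact f2 k hk') g₀ G hg1 hg2
  rw [Fin.prod_univ_three, Fin.prod_univ_three] at h1
  refine le_trans (le_of_eq ?_) h1
  congr 2
  apply filter_congr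
  intro g _
  have e1 : K.filter (fun j => ∀ i, (F n i j ^ 2 + primorial y * (g₀ i + g i)).Prime) =
      Good n K (fun i => primorial y * (g₀ i + g i)) := by
    unfold Good
    apply filter_congr
    intro k _
    rw [Fin.forall_fin_succ, Fin.forall_fin_succ, Fin.forall_fin_one]
    rfl
  have e2 : (Pool.Agent.H373R2.T7.Vz y * (((2 : ℕ) : ℝ) * Real.log n)) * (Pool.Agent.H373R2.T7.Vz y * (((2 : ℕ) : ℝ) * Real.log n)) *
      (Pool.Agent.H373R2.T7.Vz y * (((2 : ℕ) : ℝ) * Real.log n)) = (2 * V y * Real.log n) ^ 3 := by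
    have : V y = Pool.Agent.H373R2.T7.Vz y := rfl
    rw [this]
    push_cast
    ring
  rw [e1, e2]

end Pool.Agent.Results.MP_04ff0f_nt.ShiftTriples
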